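import Mathlib
import Pool.Agent.GEN.StmtsZC

/-! Squad GEN, row TRD: transcendence degree. -/

set_option autoImplicit false

namespace Pool.Agent.GEN.H10

open Pool.Agent.GEN

open scoped IntermediateField.algebraAdjoinAdjoin in
theorem alg_adj {F : Type} [Field F] [CharZero F] (S : Set F) (x : F)
    (h : IsAlgebraic (IntermediateField.adjoin ℚ S) x) : IsAlgebraic (Algebra.adjoin ℚ S) x :=
  (IsFractionRing.isAlgebraic_iff (Algebra.adjoin ℚ S) (IntermediateField.adjoin ℚ S) F).mpr h

theorem trd : TrdStmt := by
  intro F _ _ ι κ _ _ c s hc hs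
  have hind : (AlgebraicIndependent.matroid ℚ F).Indep (Set.range c) := by
    rw [AlgebraicIndependent.matroid_indep_iff]
    exact hc.to_subtype_range
  have hsub : Set.range c ⊆ (AlgebraicIndependent.matroid ℚ F).closure (Set.range s) := by
    rw [AlgebraicIndependent.matroid_closure_eq]
    rintro _ ⟨i, rfl⟩
    exact alg_adj (Set.range s) (c i) (hs i)
  have h1 : (Set.range c).encard ≤ (Set.range s).encard := by
    calc (Set.range c).encard = (AlgebraicIndependent.matroid ℚ F).eRk (Set.range c) :=
          hind.eRk_eq_encard.symm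
      _ ≤ (AlgebraicIndependent.matroid ℚ F).eRk
          ((AlgebraicIndependent.matroid ℚ F).closure (Set.range s)) :=
          Matroid.eRk_mono _ hsub
      _ = (AlgebraicIndependent.matroid ℚ F).eRk (Set.range s) := Matroid.eRk_closure_eq _ _
      _ ≤ (Set.range s).encard := Matroid.eRk_le_encard _ _
  have h2 : (Set.range c).encard = (Fintype.card ι : ℕ∞) := by
    rw [← Set.image_univ, hc.injective.encard_image, Set.encard_univ, ENat.card_eq_coe_fintype_card]
  have h3 : (Set.range s).encard ≤ (Fintype.card κ : ℕ∞) := by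
    rw [← Set.image_univ, ← ENat.card_eq_coe_fintype_card, ← Set.encard_univ]
    exact Set.encard_image_le s Set.univ
  rw [h2] at h1
  exact_mod_cast h1.trans h3

end Pool.Agent.GEN.H10
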