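import Mathlib
import Pool.Agent.GEN.StmtsZD

/-! Squad GEN, row VKR: representation of VK. -/

set_option autoImplicit false

namespace Pool.Agent.GEN.H10

open Pool.Agent.GEN

theorem vkr : VkrStmt := by
  classical
  rintro σ I K ⟨hKne, hle, hocc⟩ v
  have huniq : ∀ α ∈ I, ∀ j ∈ K, ∀ i ∈ K, α j ≠ 0 → i ≠ j → α i = 0 := by
    intro α hα j hj i hi hne hij
    have h1 : α i + α j ≤ ∑ k ∈ K, α k := by
      rw [← Finset.sum_pair hij]
      apply Finset.sum_le_sum_of_subset
      intro x hx
      rw [Finset.mem_insert, Finset.mem_singleton] at hx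
      rcases hx with hx | hx
      · rw [hx]; exact hi
      · rw [hx]; exact hj
    have h2 := hle α hα
    omega
  have hone : ∀ α ∈ I, ∀ j ∈ K, α j ≠ 0 → α j = 1 := by
    intro α hα j hj hne
    have h1 : α j ≤ ∑ k ∈ K, α k :=
      Finset.single_le_sum (f := fun k => α k) (fun _ _ => Nat.zero_le _) hj
    have h2 := hle α hα
    omega
  constructor
  · intro hv
    unfold VK at hv
    induction hv using Submodule.span_induction with
    | mem v hv =>
      obtain ⟨j, hj, α, hα, β, hβ, h1, h2, rfl⟩ := hv
      have key : ∀ i, ∑ γ ∈ I, ((if γ = α then (1 : ℚ) else 0) - (if γ = β then 1 else 0)) *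
          (γ i : ℚ) = (α i : ℚ) - (β i : ℚ) := by
        intro i
        simp only [sub_mul, Finset.sum_sub_distrib, ite_mul, one_mul, zero_mul]
        rw [Finset.sum_ite_eq' I α, Finset.sum_ite_eq' I β, if_pos hα, if_pos hβ]
      refine ⟨fun γ => (if γ = α then 1 else 0) - (if γ = β then 1 else 0), ?_, ?_, ?_⟩
      · intro γ _ hγ
        have n1 : γ ≠ α := by
          intro h
          have h3 := hγ j hj
          rw [h, h1] at h3
          exact one_ne_zero h3
        have n2 : γ ≠ β := by
          intro h
          have h3 := hγ j hj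
          rw [h, h2] at h3
          exact one_ne_zero h3
        simp only
        rw [if_neg n1, if_neg n2, sub_zero]
      · intro i hi
        rw [key i]
        by_cases hij : i = j
        · rw [hij, h1, h2, sub_self]
        · rw [huniq α hα j hj i hi (by rw [h1]; exact one_ne_zero) hij,
            huniq β hβ j hj i hi (by rw [h2]; exact one_ne_zero) hij, sub_self]
      · intro i
        exact (key i).symm
    | zero =>
      refine ⟨fun _ => 0, fun _ _ _ => rfl, ?_, ?_⟩
      · intro j _
        simp
      · intro i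
        simp
    | add x y _ _ hx hy =>
      obtain ⟨t, a1, a2, a3⟩ := hx
      obtain ⟨s, b1, b2, b3⟩ := hy
      refine ⟨fun γ => t γ + s γ, ?_, ?_, ?_⟩
      · intro γ h1 h2
        simp only
        rw [a1 γ h1 h2, b1 γ h1 h2, add_zero]
      · intro j hj
        simp only [add_mul, Finset.sum_add_distrib]
        rw [a2 j hj, b2 j hj, add_zero]
      · intro i
        simp only [add_mul, Finset.sum_add_distrib, Pi.add_apply]
        rw [a3 i, b3 i]
    | smul c x _ hx =>
      obtain ⟨t, a1, a2, a3⟩ := hx
      refine ⟨fun γ => c * t γ, ?_, ?_, ?_⟩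
      · intro γ h1 h2
        simp only
        rw [a1 γ h1 h2, mul_zero]
      · intro j hj
        simp only [mul_assoc, ← Finset.mul_sum]
        rw [a2 j hj, mul_zero]
      · intro i
        simp only [mul_assoc, ← Finset.mul_sum, Pi.smul_apply, smul_eq_mul]
        rw [a3 i]
  · rintro ⟨t, h1, h2, h3⟩
    choose! a ha ha1 using hocc
    have hv : v = ∑ α ∈ I, t α • ((fun i => (α i : ℚ)) - ∑ j ∈ K, (α j : ℚ) •
        fun i => ((a j) i : ℚ)) := by
      have e : ∑ α ∈ I, t α • (∑ j ∈ K, (α j : ℚ) • fun i => ((a j) i : ℚ)) =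
          (0 : σ → ℚ) := by
        calc ∑ α ∈ I, t α • (∑ j ∈ K, (α j : ℚ) • fun i => ((a j) i : ℚ)) =
            ∑ j ∈ K, (∑ α ∈ I, t α * (α j : ℚ)) • fun i => ((a j) i : ℚ) := by
              simp only [Finset.smul_sum, smul_smul, Finset.sum_smul]
              rw [Finset.sum_comm]
          _ = ∑ j ∈ K, (0 : σ → ℚ) := by
              refine Finset.sum_congr rfl fun j hj => ?_
              rw [h2 j hj, zero_smul]
          _ = 0 := Finset.sum_const_zero
      simp only [smul_sub, Finset.sum_sub_distrib]
      rw [e, sub_zero]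
      funext i
      rw [h3 i, Finset.sum_apply]
      rfl
    rw [hv]
    apply Submodule.sum_mem
    intro α hα
    by_cases hz : ∀ j ∈ K, α j = 0
    · rw [h1 α hα hz, zero_smul]
      exact Submodule.zero_mem _
    · simp only [not_forall] at hz
      obtain ⟨j, hj, hne⟩ := hz
      have hj1 : α j = 1 := hone α hα j hj hne
      have e : ∑ i ∈ K, (α i : ℚ) • (fun k => ((a i) k : ℚ)) = fun k => ((a j) k : ℚ) := by
        rw [Finset.sum_eq_single_of_mem j hj]
        · rw [hj1, Nat.cast_one, one_smul]
        · intro i hi hij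
          rw [huniq α hα j hj i hi hne hij, Nat.cast_zero, zero_smul]
      rw [e]
      apply Submodule.smul_mem
      apply Submodule.subset_span
      exact ⟨j, hj, α, hα, a j, ha j hj, hj1, ha1 j hj, rfl⟩

end Pool.Agent.GEN.H10
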